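import Pool.Agent.N436.DF.Stm

/-!
# DF/5: a colouring of `X` and a colouring of the kill system give a colouring
-/

set_option autoImplicit false

namespace Pool.Agent.N495.DF

open Finset Pool.Agent.N436.DF

theorem r_nn {V : Type} [DecidableEq V] {P : Par} {H : Hub V} (hok : Ok P H) (u v : V) :
    0 ≤ H.r u v := by
  rcases hok.r01 u v with h | h <;> rw [h] <;> norm_num

theorem killCol : S_killCol := by
  intro V _ P H S X f p hok hXS hcX hcol
  obtain ⟨f2, p2, h2⟩ := hcol
  -- loads in the kill system are nonnegative
  have hload : ∀ v, 0 ≤ load (kill H X f) (S \ X) f2 p2 v := by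
    intro v
    unfold load
    apply Finset.sum_nonneg
    intro w _
    split_ifs
    · exact r_nn hok v w
    · exact h2.nn v w
  have hkey : ∀ v ∈ S \ X, nr H X f (f2 v) v = 0 ∧
      (kill H X f).c (f2 v) v = H.c (f2 v) v - pr H X f (!(f2 v)) v := by
    intro v hv
    have h0 : 0 ≤ (kill H X f).c (f2 v) v := le_trans (hload v) (h2.cap v hv)
    have hnn : 0 ≤ nr H X f (f2 v) v := by
      unfold nr
      exact Finset.sum_nonneg fun x _ => r_nn hok x v
    have hnr : ¬ 0 < nr H X f (f2 v) v := by
      intro hpos
      have : (kill H X f).c (f2 v) v = -1 := if_pos hpos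
      omega
    refine ⟨by omega, ?_⟩
    have h1 : (kill H X f).c (f2 v) v = max (-1) (H.c (f2 v) v - pr H X f (!(f2 v)) v) :=
      if_neg hnr
    rw [h1] at h0 ⊢
    omega
  have hterm : ∀ v ∈ S \ X, ∀ x ∈ X, f x = f2 v → H.r x v = 0 := by
    intro v hv x hx hxv
    have h1 := (hkey v hv).1
    unfold nr at h1
    rw [Finset.sum_eq_zero_iff_of_nonneg (fun x _ => r_nn hok x v)] at h1
    exact h1 x (Finset.mem_filter.2 ⟨hx, hxv⟩)
  refine ⟨fun w => if w ∈ X then f w else f2 w,
    fun u w => if u ∈ X then (if w ∈ X then p u w else 0) else
      (if w ∈ X then H.m u w else p2 u w), ⟨?_, ?_, ?_⟩, fun x hx => if_pos hx⟩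
  · intro u v
    show 0 ≤ if u ∈ X then (if v ∈ X then p u v else 0) else
      (if v ∈ X then H.m u v else p2 u v)
    split_ifs
    · exact hcX.nn u v
    · exact le_rfl
    · exact hok.m_nn u v
    · exact h2.nn u v
  · intro u hu v hv huv
    by_cases hu' : u ∈ X <;> by_cases hv' : v ∈ X
    · simp only [hu', hv', if_true] at huv ⊢
      exact hcX.pay u hu' v hv' huv
    · simp only [hu', hv', if_true, if_false] at huv ⊢
      rw [zero_add, hok.msymm u v]
    · simp only [hu', hv', if_true, if_false] at huv ⊢
      rw [add_zero]
    · simp only [hu', hv', if_false] at huv ⊢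
      exact h2.pay u (Finset.mem_sdiff.2 ⟨hu, hu'⟩) v (Finset.mem_sdiff.2 ⟨hv, hv'⟩) huv
  · intro u hu
    by_cases hu' : u ∈ X
    · have e1 : load H S (fun w => if w ∈ X then f w else f2 w)
          (fun u w => if u ∈ X then (if w ∈ X then p u w else 0) else
            (if w ∈ X then H.m u w else p2 u w)) u = load H X f p u := by
        unfold load
        rw [← Finset.sum_sdiff hXS]
        have e2 : ∑ v ∈ S \ X, (if (if u ∈ X then f u else f2 u) = (if v ∈ X then f v else f2 v)
            then H.r u v else (if u ∈ X then (if v ∈ X then p u v else 0) else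
              (if v ∈ X then H.m u v else p2 u v))) = 0 := by
          apply Finset.sum_eq_zero
          intro v hv
          have hv' : v ∉ X := (Finset.mem_sdiff.1 hv).2
          simp only [hu', hv', if_true, if_false]
          split_ifs with h
          · exact hterm v hv u hu' h
          · rfl
        rw [e2, zero_add]
        apply Finset.sum_congr rfl
        intro v hv
        simp only [hu', hv, if_true]
      rw [e1]
      simp only [hu', if_true]
      exact hcX.cap u hu'
    · have hus : u ∈ S \ X := Finset.mem_sdiff.2 ⟨hu, hu'⟩
      have e1 : load H S (fun w => if w ∈ X then f w else f2 w)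
          (fun u w => if u ∈ X then (if w ∈ X then p u w else 0) else
            (if w ∈ X then H.m u w else p2 u w)) u =
          load (kill H X f) (S \ X) f2 p2 u +
            (nr H X f (f2 u) u + pr H X f (!(f2 u)) u) := by
        unfold load
        rw [← Finset.sum_sdiff hXS]
        congr 1
        · apply Finset.sum_congr rfl
          intro v hv
          have hv' : v ∉ X := (Finset.mem_sdiff.1 hv).2
          simp only [hu', hv', if_false]
          rfl
        · unfold nr pr
          rw [Finset.sum_filter, Finset.sum_filter, ← Finset.sum_add_distrib]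
          apply Finset.sum_congr rfl
          intro x hx
          simp only [hu', hx, if_true, if_false]
          rw [hok.rsymm u x, hok.msymm u x]
          cases f2 u <;> cases f x <;> simp
      rw [e1]
      simp only [hu', if_false]
      obtain ⟨k1, k2⟩ := hkey u hus
      have k3 := h2.cap u hus
      rw [k2] at k3
      rw [k1]
      linarith

end Pool.Agent.N495.DF
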